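import Mathlib
import Pool.Agent.Helper9.SID.Final

/-! Project BQ (MP_ee405c_gt, Borel spaces): definitions. -/

set_option autoImplicit false

open Set Topology TopologicalSpace

namespace Pool.Agent.Helper65.BQ

open Pool.Agent.Helper9.SID

section
variable {K : Type} [TopologicalSpace K]

/-- The set `g ≤ 0`. -/
def lo (g : K → ℝ) : Set K := {x | g x ≤ 0}

/-- The set `1 ≤ g`. -/
def hi (g : K → ℝ) : Set K := {x | 1 ≤ g x}

/-- `L` is a partition between `g ≤ 0` and `1 ≤ g`. -/
def Par (g : K → ℝ) (L : Set K) : Prop := IsPartition (lo g) (hi g) L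

/-- The pairs given by the functions `f (κ i)` are essential on `T`. -/
def Ess (f : ℕ → K → ℝ) (κ : ℕ → ℕ) (T : Set K) : Prop :=
  ∀ L : ℕ → Set K, (∀ i, Par (f (κ i)) (L i)) → (T ∩ ⋂ i, L i).Nonempty

/-- The pairs given by the functions `f (κ i)`, `i < n`, are essential on `T`. -/
def EssN (f : ℕ → K → ℝ) (κ : ℕ → ℕ) (n : ℕ) (T : Set K) : Prop :=
  ∀ L : ℕ → Set K, (∀ i, Par (f (κ i)) (L i)) → (T ∩ ⋂ i ∈ Finset.range n, L i).Nonempty

/-- Closed sets with an essential sequence. -/
def Big (f : ℕ → K → ℝ) (T : Set K) : Prop := IsClosed T ∧ ∃ κ, Ess f κ T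

/-- A sequence of continuous functions which separates disjoint closed sets. -/
structure Fam (f : ℕ → K → ℝ) : Prop where
  cont : ∀ k, Continuous (f k)
  sep : ∀ A B : Set K, IsClosed A → IsClosed B → Disjoint A B → ∃ k, A ⊆ lo (f k) ∧ B ⊆ hi (f k)

/-- A countable base. -/
structure Base (O : ℕ → Set K) : Prop where
  op : ∀ j, IsOpen (O j)
  nhds : ∀ W : Set K, IsOpen W → ∀ x ∈ W, ∃ j, x ∈ O j ∧ O j ⊆ W

/-- The open set with the code `a`. -/
def cU (O : ℕ → Set K) (a : ℕ → Bool) : Set K := {x | ∃ j, a j = true ∧ x ∈ O j}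

/-- The G-delta set coded by the zeroth part of `c`. -/
def GP (O : ℕ → Set K) (c : ℕ → Bool) : Set K :=
  ⋂ n, cU O (fun j => c (Nat.pair 0 (Nat.pair n j)))

/-- The closed set coded by the first part of `c`. -/
def CT (O : ℕ → Set K) (c : ℕ → Bool) : Set K := (cU O (fun j => c (Nat.pair 1 j)))ᶜ

/-- `c` certifies that the closed set `CT O c` has an essential sequence. -/
def Cert (f : ℕ → K → ℝ) (O : ℕ → Set K) (c : ℕ → Bool) : Prop :=
  (∀ i, ∃ n, c (Nat.pair 2 (Nat.pair i n)) = true) ∧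
  ∀ l : List ℕ, (∀ i < l.length, c (Nat.pair 2 (Nat.pair i (l.getD i 0))) = true) →
    EssN f (fun i => l.getD i 0) l.length (CT O c)

/-- The points which satisfy all tests: if `f k x` is the code `c` then `x` is not in the G-delta set
`GP O c`, or some `f j x` is the code of a certified closed set contained in `GP O c`. -/
def XX (f : ℕ → K → ℝ) (O : ℕ → Set K) : Set K :=
  {x | ∀ k c, jj c = f k x → x ∉ GP O c ∨
    ∃ j c', jj c' = f j x ∧ Cert f O c' ∧ CT O c' ⊆ GP O c}

end

end Pool.Agent.Helper65.BQ
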