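import Pool.Agent.Helper65.BQ.St
import Pool.Agent.Helper9.SID.Closed

/-! Project BQ (MP_ee405c_gt): assembly. -/

set_option autoImplicit false

open Set Topology TopologicalSpace

namespace Pool.Agent.Helper65.BQ

open Pool.Agent.Helper9.SID

theorem big_iff (hSEQ : StSEQ) {K : Type} [TopologicalSpace K] [MetrizableSpace K]
    {f : ℕ → K → ℝ} (hf : Fam f) (T : Set K) : Big f T ↔ IsClosed T ∧ StronglyInfDim T := by
  constructor
  · rintro ⟨h1, h2⟩
    exact ⟨h1, (hSEQ K f hf T h1).2 h2⟩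
  · rintro ⟨h1, h2⟩
    exact ⟨h1, (hSEQ K f hf T h1).1 h2⟩

theorem partF (hFAM : StFAM) (hSEQ : StSEQ) (hPFS : StPFS)
    (K : Type) [TopologicalSpace K] [CompactSpace K] [MetrizableSpace K] (hK : StronglyInfDim K)
    (X : Set K) (F : ℕ → ℕ → Set K) (hF : ∀ m n, IsClosed (F m n)) (hX : X = ⋂ m, ⋃ n, F m n)
    (hm : ∀ T : Set K, IsClosed T → StronglyInfDim T → (T ∩ X).Nonempty) :
    ∃ Y ⊆ X, IsGδ Y ∧ StronglyInfDim Y ∧ TotallyDisconnectedSpace Y ∧ HeredSID Y := by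
  obtain ⟨⟨f, hf⟩, -⟩ := hFAM K
  have hu : Big f (univ : Set K) :=
    (big_iff hSEQ hf univ).2 ⟨isClosed_univ, hK.homeo (Homeomorph.Set.univ K).symm⟩
  refine hPFS K f hf hu X F hF hX fun T hT => ?_
  obtain ⟨h1, h2⟩ := (big_iff hSEQ hf T).1 hT
  exact hm T h1 h2

theorem partG (hFAM : StFAM) (hSEQ : StSEQ) (hBOR : StBOR) (hMEE : StMEE) (hSIX : StSIX)
    (hCON : StCON) (hZER : StZER)
    (K : Type) [TopologicalSpace K] [CompactSpace K] [MetrizableSpace K] (hK : StronglyInfDim K) :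
    ∃ X : Set K, (∃ G : ℕ → ℕ → Set K, (∀ m n, IsGδ (G m n)) ∧ X = ⋂ m, ⋃ n, G m n) ∧
      (∀ T : Set K, IsClosed T → StronglyInfDim T → (T ∩ X).Nonempty) ∧ StronglyInfDim X ∧
      (∀ Y : Set X, IsGδ Y → TotallyDisconnectedSpace Y → Y.Nonempty → ZeroDim Y) ∧
      ∀ Z : ℕ → Set X, (∀ n, IsGδ (Z n)) → TotallyDisconnectedSpace (⋃ n, Z n : Set X) →
        ¬ StronglyInfDim (⋃ n, Z n : Set X) := by
  obtain ⟨⟨f, hf⟩, O, hO⟩ := hFAM K
  have hu : Big f (univ : Set K) :=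
    (big_iff hSEQ hf univ).2 ⟨isClosed_univ, hK.homeo (Homeomorph.Set.univ K).symm⟩
  have hmeet : ∀ T, Big f T → (T ∩ XX f O).Nonempty := hMEE K f hf.cont O hO
  have hzero : ∀ Y : Set (XX f O), IsGδ Y → TotallyDisconnectedSpace Y → Y.Nonempty →
      ZeroDim Y := by
    intro Y hY htd hne
    obtain ⟨U', hU', hYU'⟩ := isGδ_iff_eq_iInter_nat.mp hY
    have hex : ∀ n, ∃ U : Set K, IsOpen U ∧ Subtype.val ⁻¹' U = U' n := fun n =>
      isOpen_induced_iff.mp (hU' n)
    choose U hU hUU' using hex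
    have himg : Subtype.val '' Y = XX f O ∩ ⋂ n, U n := by
      ext x
      constructor
      · rintro ⟨y, hy, rfl⟩
        refine ⟨y.2, mem_iInter.mpr fun n => ?_⟩
        rw [hYU'] at hy
        have := mem_iInter.mp hy n
        rw [← hUU' n] at this
        exact this
      · rintro ⟨h1, h2⟩
        refine ⟨⟨x, h1⟩, ?_, rfl⟩
        rw [hYU', mem_iInter]
        intro n
        rw [← hUU' n]
        exact mem_iInter.mp h2 n
    by_cases hT : ∃ T ⊆ ⋂ n, U n, Big f T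
    · exfalso
      obtain ⟨T, hTU, hTb⟩ := hT
      obtain ⟨A, hA, hpre, hnt⟩ := hCON K f hf.cont (XX f O) hmeet T hTb
      have hAY : A ⊆ Subtype.val '' Y := by
        rw [himg]
        exact fun x hx => ⟨(hA hx).2, hTU (hA hx).1⟩
      have hAr : Subtype.val '' (Subtype.val ⁻¹' A : Set (XX f O)) = A := by
        rw [Subtype.image_preimage_coe]
        exact inter_eq_right.mpr fun x hx => (hA hx).2
      have hpre2 : IsPreconnected (Subtype.val ⁻¹' A : Set (XX f O)) := by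
        rw [← IsInducing.subtypeVal.isPreconnected_image, hAr]
        exact hpre
      have htd2 : IsTotallyDisconnected Y := totallyDisconnectedSpace_subtype_iff.mp htd
      have hsub : (Subtype.val ⁻¹' A : Set (XX f O)) ⊆ Y := by
        intro y hy
        obtain ⟨z, hz, hzy⟩ := hAY hy
        have : z = y := Subtype.ext hzy
        rwa [← this]
      have hss := htd2 _ hsub hpre2
      obtain ⟨x, hx, y, hy, hxy⟩ := hnt
      apply hxy
      have hx1 : x ∈ XX f O := (hA hx).2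
      have hy1 : y ∈ XX f O := (hA hy).2
      have := hss (show (⟨x, hx1⟩ : XX f O) ∈ Subtype.val ⁻¹' A from hx)
        (show (⟨y, hy1⟩ : XX f O) ∈ Subtype.val ⁻¹' A from hy)
      exact congrArg Subtype.val this
    · push Not at hT
      have h1 : ZeroDim (Subtype.val '' Y : Set K) :=
        hZER K f hf O hO U hU hT _ himg.subset (hne.image _)
      exact h1.homeo (homeoImage (XX f O) Y).symm
  refine ⟨XX f O, hBOR K f hf.cont O hO, fun T h1 h2 => hmeet T ((big_iff hSEQ hf T).2 ⟨h1, h2⟩),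
    hSIX K f hf.cont (XX f O) hmeet hu, hzero, ?_⟩
  intro Z hZ htd hsid
  let _ := metrizableSpaceMetric K
  obtain ⟨n, hn⟩ := sid_sum_sets Z hsid
  have htd2 : IsTotallyDisconnected (⋃ n, Z n) := totallyDisconnectedSpace_subtype_iff.mp htd
  have htn : TotallyDisconnectedSpace (Z n) := totallyDisconnectedSpace_subtype_iff.mpr
    fun t ht hp => htd2 t (ht.trans (subset_iUnion Z n)) hp
  refine CountableDim.not_sid (X := Z n) ⟨fun _ => univ, by rw [iUnion_const], fun _ hne => ?_⟩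
    univ (hn.homeo (Homeomorph.Set.univ (Z n)).symm)
  have hne2 : (Z n).Nonempty := by
    obtain ⟨x, -⟩ := hne
    exact ⟨x.1, x.2⟩
  exact (hzero (Z n) (hZ n) htn hne2).homeo (Homeomorph.Set.univ (Z n)).symm

theorem final (hFAM : StFAM) (hSEQ : StSEQ) (hPFS : StPFS) (hBOR : StBOR) (hMEE : StMEE)
    (hSIX : StSIX) (hCON : StCON) (hZER : StZER) (hHIL : StHIL) :
    StronglyInfDim (ℕ → unitInterval) ∧
    ∀ (K : Type) [TopologicalSpace K] [CompactSpace K] [MetrizableSpace K], StronglyInfDim K →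
      (∃ X : Set K, (∃ G : ℕ → ℕ → Set K, (∀ m n, IsGδ (G m n)) ∧ X = ⋂ m, ⋃ n, G m n) ∧
        (∀ T : Set K, IsClosed T → StronglyInfDim T → (T ∩ X).Nonempty) ∧ StronglyInfDim X ∧
        (∀ Y : Set X, IsGδ Y → TotallyDisconnectedSpace Y → Y.Nonempty → ZeroDim Y) ∧
        ∀ Z : ℕ → Set X, (∀ n, IsGδ (Z n)) → TotallyDisconnectedSpace (⋃ n, Z n : Set X) →
          ¬ StronglyInfDim (⋃ n, Z n : Set X)) ∧
      ∀ (X : Set K) (F : ℕ → ℕ → Set K), (∀ m n, IsClosed (F m n)) → X = ⋂ m, ⋃ n, F m n →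
        (∀ T : Set K, IsClosed T → StronglyInfDim T → (T ∩ X).Nonempty) →
        ∃ Y ⊆ X, IsGδ Y ∧ StronglyInfDim Y ∧ TotallyDisconnectedSpace Y ∧ HeredSID Y :=
  ⟨hHIL, fun K _ _ _ hK => ⟨partG hFAM hSEQ hBOR hMEE hSIX hCON hZER K hK,
    fun X F hF hX hm => partF hFAM hSEQ hPFS K hK X F hF hX hm⟩⟩

end Pool.Agent.Helper65.BQ
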