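import Pool.Agent.Helper65.BQ.St

/-! Project BQ: existence of codes. -/

set_option autoImplicit false

open Set Topology TopologicalSpace

namespace Pool.Agent.Helper65.BQ

open Pool.Agent.Helper9.SID

theorem par_level {K : Type} [TopologicalSpace K] {g : K → ℝ} (hg : Continuous g) {t : ℝ}
    (h0 : 0 < t) (h1 : t < 1) : Par g {x | g x = t} := by
  have e : {x | g x = t} = ({x | g x < t} ∪ {x | t < g x})ᶜ := by
    ext x
    simp only [mem_compl_iff, mem_union, mem_ofPred_eq, not_or, not_lt]
    exact ⟨fun h => ⟨h.ge, h.le⟩, fun h => le_antisymm h.2 h.1⟩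
  rw [Par, e]
  refine IsPartition.of_open (isOpen_lt hg continuous_const) (isOpen_lt continuous_const hg)
    ?_ ?_ ?_
  · rw [Set.disjoint_left]
    intro x hx hx2
    exact lt_asymm (show g x < t from hx) hx2
  · intro x hx
    exact lt_of_le_of_lt (show g x ≤ 0 from hx) h0
  · intro x hx
    exact lt_of_lt_of_le h1 (show 1 ≤ g x from hx)

theorem pCO0 : StCO0 := by
  classical
  intro K _ f hf O hO U T κ hU hT hκ
  let c : ℕ → Bool := fun m =>
    if (Nat.unpair m).1 = 0 then
      decide (O (Nat.unpair (Nat.unpair m).2).2 ⊆ U (Nat.unpair (Nat.unpair m).2).1)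
    else if (Nat.unpair m).1 = 1 then decide (Disjoint (O (Nat.unpair m).2) T)
    else decide ((Nat.unpair (Nat.unpair m).2).2 = κ (Nat.unpair (Nat.unpair m).2).1)
  have c0 : ∀ n j, c (Nat.pair 0 (Nat.pair n j)) = decide (O j ⊆ U n) := by
    intro n j
    simp [c]
  have c1 : ∀ j, c (Nat.pair 1 j) = decide (Disjoint (O j) T) := by
    intro j
    simp [c]
  have c2 : ∀ i n, c (Nat.pair 2 (Nat.pair i n)) = decide (n = κ i) := by
    intro i n
    simp [c]
  have hCT : CT O c = T := by
    ext x
    constructor
    · intro hx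
      by_contra hxT
      obtain ⟨j, hj1, hj2⟩ := hO.nhds Tᶜ hT.isOpen_compl x hxT
      apply hx
      refine ⟨j, ?_, hj1⟩
      show c (Nat.pair 1 j) = true
      rw [c1, decide_eq_true_iff]
      exact Set.disjoint_left.mpr fun y hy => hj2 hy
    · rintro hxT ⟨j, hj1, hj2⟩
      have h1 : c (Nat.pair 1 j) = true := hj1
      rw [c1, decide_eq_true_iff] at h1
      exact Set.disjoint_left.mp h1 hj2 hxT
  refine ⟨c, ?_, hCT, ?_, ?_⟩
  · ext x
    constructor
    · intro hx
      refine mem_iInter.mpr fun n => ?_
      obtain ⟨j, hj1, hj2⟩ := mem_iInter.mp hx n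
      have h1 : c (Nat.pair 0 (Nat.pair n j)) = true := hj1
      rw [c0, decide_eq_true_iff] at h1
      exact h1 hj2
    · intro hx
      refine mem_iInter.mpr fun n => ?_
      obtain ⟨j, hj1, hj2⟩ := hO.nhds (U n) (hU n) x (mem_iInter.mp hx n)
      refine ⟨j, ?_, hj1⟩
      show c (Nat.pair 0 (Nat.pair n j)) = true
      rw [c0, decide_eq_true_iff]
      exact hj2
  · intro i
    refine ⟨κ i, ?_⟩
    rw [c2]
    simp
  · intro l hl L hL
    rw [hCT]
    have hl2 : ∀ i < l.length, l.getD i 0 = κ i := by
      intro i hi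
      have := hl i hi
      rw [c2, decide_eq_true_iff] at this
      exact this
    obtain ⟨x, hx1, hx2⟩ := hκ (fun i => if i < l.length then L i else {x | f (κ i) x = 1 / 2})
      (fun i => by
        by_cases hi : i < l.length
        · simp only [hi, if_true]
          have h3 : Par (f (l.getD i 0)) (L i) := hL i
          rw [hl2 i hi] at h3
          exact h3
        · simp only [hi, if_false]
          exact par_level (hf _) (by norm_num) (by norm_num))
    refine ⟨x, hx1, ?_⟩
    simp only [Finset.mem_range, mem_iInter]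
    intro i hi
    have := mem_iInter.mp hx2 i
    simp only [hi, if_true] at this
    exact this

end Pool.Agent.Helper65.BQ
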