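import Pool.Agent.Helper65.BQ.St

/-! Project BQ: extension of partitions from closed sets. -/

set_option autoImplicit false

open Set Topology TopologicalSpace

namespace Pool.Agent.Helper65.BQ

open Pool.Agent.Helper9.SID

theorem pEXT : StEXT := by
  intro K _ _ Z A B U V hZ hA hB hAB hU hV hUV hZA hZB
  let _ := metrizableSpaceMetric K
  have key : ∀ (A B U V : Set K), IsClosed A → Disjoint A B → IsOpen V → Z ∩ U ∩ V = ∅ →
      Z ∩ A ⊆ U → Z ∩ B ⊆ V → Disjoint (closure (Z ∩ U ∪ A)) (Z ∩ V ∪ B) := by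
    intro A B U V hA hAB hV hUV hZA hZB
    rw [Set.disjoint_left]
    intro x hx hx2
    rw [closure_union, hA.closure_eq] at hx
    have h0 : ∀ y, y ∈ Z → y ∈ U → y ∈ V → False := by
      intro y h1 h2 h3
      have : y ∈ Z ∩ U ∩ V := ⟨⟨h1, h2⟩, h3⟩
      rw [hUV] at this
      exact this
    rcases hx with hx | hx
    · have hxZ : x ∈ Z := closure_minimal inter_subset_left hZ hx
      have hxV : x ∈ V := by
        rcases hx2 with h | h
        · exact h.2
        · exact hZB ⟨hxZ, h⟩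
      obtain ⟨y, hy1, hy2⟩ := mem_closure_iff.mp hx V hV hxV
      exact h0 y hy2.1 hy2.2 hy1
    · rcases hx2 with h | h
      · exact h0 x h.1 (hZA ⟨h.1, hx⟩) h.2
      · exact Set.disjoint_left.mp hAB hx h
  have h1 : Disjoint (closure (Z ∩ U ∪ A)) (Z ∩ V ∪ B) := key A B U V hA hAB hV hUV hZA hZB
  have h2 : Disjoint (Z ∩ U ∪ A) (closure (Z ∩ V ∪ B)) := by
    refine (key B A V U hB hAB.symm hU ?_ hZB hZA).symm
    rw [inter_right_comm]
    exact hUV
  obtain ⟨G, H, hG, hH, hs, ht, hGH⟩ := separatedNhds_iff_disjoint.mpr (completely_normal h1 h2)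
  refine ⟨(G ∪ H)ᶜ, IsPartition.of_open hG hH hGH (fun x hx => hs (Or.inr hx))
    (fun x hx => ht (Or.inr hx)), ?_⟩
  intro z hz hz2
  exact ⟨fun h => hz2 (Or.inl (hs (Or.inl ⟨hz, h⟩))), fun h => hz2 (Or.inr (ht (Or.inl ⟨hz, h⟩)))⟩

end Pool.Agent.Helper65.BQ
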