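import Pool.Agent.Helper65.BQ.St

/-! Project BQ: a separating sequence of functions and a base. -/

set_option autoImplicit false

open Set Topology TopologicalSpace

namespace Pool.Agent.Helper65.BQ

open Pool.Agent.Helper9.SID

theorem pFAM : StFAM := by
  intro K _ _ _
  let _ := metrizableSpaceMetric K
  constructor
  · have : Nonempty C(K, ℝ) := ⟨0⟩
    refine ⟨fun k => denseSeq C(K, ℝ) k, fun k => (denseSeq C(K, ℝ) k).continuous, ?_⟩
    intro A B hA hB hAB
    obtain ⟨g, hg0, hg1, -⟩ := exists_continuous_zero_one_of_isClosed hA hB hAB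
    let h : C(K, ℝ) := (3 : ℝ) • g - 1
    obtain ⟨k, hk⟩ := (denseRange_denseSeq C(K, ℝ)).exists_mem_open
      (Metric.isOpen_ball (x := h) (ε := 1 / 2)) ⟨h, Metric.mem_ball_self (by norm_num)⟩
    have hd : ∀ x, |denseSeq C(K, ℝ) k x - h x| < 1 / 2 := by
      intro x
      have h1 := ContinuousMap.dist_apply_le_dist (f := denseSeq C(K, ℝ) k) (g := h) x
      rw [Real.dist_eq] at h1
      exact lt_of_le_of_lt h1 hk
    have hh : ∀ x, h x = 3 * g x - 1 := by
      intro x
      simp [h]
    refine ⟨k, fun x hx => ?_, fun x hx => ?_⟩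
    · have h1 := abs_lt.mp (hd x)
      have h2 := hh x
      have h3 : g x = 0 := hg0 hx
      rw [h3] at h2
      show denseSeq C(K, ℝ) k x ≤ 0
      linarith [h1.2]
    · have h1 := abs_lt.mp (hd x)
      have h2 := hh x
      have h3 : g x = 1 := hg1 hx
      rw [h3] at h2
      show 1 ≤ denseSeq C(K, ℝ) k x
      linarith [h1.1]
  · obtain ⟨O, hO1, hO2⟩ := exists_nat_basis K
    exact ⟨O, hO1, hO2⟩

end Pool.Agent.Helper65.BQ
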