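import Pool.Agent.Helper65.BQ.St

/-! Project BQ: zero-dimensionality of the traces. -/

set_option autoImplicit false

open Set Topology TopologicalSpace

namespace Pool.Agent.Helper65.BQ

open Pool.Agent.Helper9.SID

theorem pZER (hCO1 : StCO1) : StZER := by
  classical
  intro K _ _ _ f hf O hO U hU hU2 Y hY hne
  let c : ℕ → Bool := fun m =>
    if (Nat.unpair m).1 = 0 then
      decide (O (Nat.unpair (Nat.unpair m).2).2 ⊆ U (Nat.unpair (Nat.unpair m).2).1)
    else false
  have c0 : ∀ n j, c (Nat.pair 0 (Nat.pair n j)) = decide (O j ⊆ U n) := by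
    intro n j
    simp [c]
  have hGP : GP O c = ⋂ n, U n := by
    ext x
    constructor
    · intro hx
      refine mem_iInter.mpr fun n => ?_
      obtain ⟨j, hj1, hj2⟩ := mem_iInter.mp hx n
      have h1 : c (Nat.pair 0 (Nat.pair n j)) = true := hj1
      rw [c0, decide_eq_true_iff] at h1
      exact h1 hj2
    · intro hx
      refine mem_iInter.mpr fun n => ?_
      obtain ⟨j, hj1, hj2⟩ := hO.nhds (U n) (hU n) x (mem_iInter.mp hx n)
      refine ⟨j, ?_, hj1⟩
      show c (Nat.pair 0 (Nat.pair n j)) = true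
      rw [c0, decide_eq_true_iff]
      exact hj2
  have havoid : ∀ k, ∀ y ∈ Y, f k y ≠ jj c := by
    intro k y hy hky
    rcases (hY hy).1 k c hky.symm with h1 | ⟨j, c', -, h2, h3⟩
    · rw [hGP] at h1
      exact h1 (hY hy).2
    · rw [hGP] at h3
      exact hU2 _ h3 (hCO1 K f hf.cont O hO c' h2)
  refine ⟨hne.to_subtype, ?_⟩
  refine isTopologicalBasis_of_isOpen_of_nhds (fun s hs => hs.isOpen) (fun x₀ s hxs hs => ?_)
  obtain ⟨W, hW, rfl⟩ := isOpen_induced_iff.mp hs
  have hxW : (x₀ : K) ∈ W := hxs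
  obtain ⟨k, hk1, hk2⟩ := hf.sep {(x₀ : K)} Wᶜ isClosed_singleton hW.isClosed_compl
    (by rw [Set.disjoint_singleton_left]; exact fun h => h hxW)
  refine ⟨{y : Y | f k y < jj c}, ⟨?_, ?_⟩, ?_, ?_⟩
  · have e : {y : Y | f k y < jj c} = {y : Y | f k y ≤ jj c} := by
      ext y
      have h1 := havoid k y y.2
      simp only [mem_ofPred_eq]
      exact ⟨fun h => le_of_lt h, fun h => lt_of_le_of_ne h h1⟩
    rw [e]
    exact isClosed_le ((hf.cont k).comp continuous_subtype_val) continuous_const
  · exact isOpen_lt ((hf.cont k).comp continuous_subtype_val) continuous_const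
  · have : f k x₀ ≤ 0 := hk1 rfl
    exact lt_of_le_of_lt this (jj_pos c)
  · intro y hy
    by_contra hyW
    have h1 : 1 ≤ f k y := hk2 (fun h => hyW h)
    have h2 : f k y < jj c := hy
    have h3 := jj_lt c
    linarith

end Pool.Agent.Helper65.BQ
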