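import Pool.Agent.Helper65.BQ.Defs

/-!
# Project BQ (MP_ee405c_gt): statements with complete proofs

`jj : (ℕ → Bool) → ℝ` is the closed embedding of the Cantor space into `(0, 1)` of
Pool.Agent.Helper9.SID.Coding (`jj_cont`, `jj_inj`, `jj_pos`, `jj_lt`, `isClosed_proj`).  `IsPartition`,
`StronglyInfDim` etc. and lemmas: Pool.Agent.Helper9.SID (Basic, Coding, Main1, Main2, Closed, Dim).
For a compact metrizable `K` use `letI := metrizableSpaceMetric K` to get second countability, normality etc.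
-/

set_option autoImplicit false

open Set Topology TopologicalSpace

namespace Pool.Agent.Helper65.BQ

open Pool.Agent.Helper9.SID

/-- FAM. PROOF. `C(K, ℝ)` is separable (`letI := metrizableSpaceMetric K`; instance for compact metrizable `K`);
let `f k` be the functions of `denseSeq C(K, ℝ)`.  For disjoint closed `A, B` take a Urysohn function `g` with
`g = -1` on `A` and `g = 2` on `B` (`exists_continuous_zero_one_of_isClosed`, rescaled) and `f k` with
`dist (f k) g < 1 / 2`.  Base: `exists_nat_basis` (Helper9.SID.Coding). -/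
def StFAM : Prop :=
  ∀ (K : Type) [TopologicalSpace K] [CompactSpace K] [MetrizableSpace K],
    (∃ f : ℕ → K → ℝ, Fam f) ∧ ∃ O : ℕ → Set K, Base O

/-- EXT. Extension of partitions from closed sets.  PROOF. The sets `S = (U ∩ Z) ∪ A` and `S' = (V ∩ Z) ∪ B` are
separated: `closure (U ∩ Z) ⊆ Z`, and it is disjoint from the open set `V` because `U ∩ Z ∩ V = ∅`; it is disjoint from
`B` because `B ∩ Z ⊆ V`; `A ∩ V ∩ Z ⊆ U ∩ V ∩ Z = ∅`; symmetric.  By complete normality (`completely_normal` and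
`separatedNhds_iff_disjoint`, see `exists_open_ext` in Helper9.SID.Basic; metrizable spaces are completely normal)
there are disjoint open `G ⊇ S`, `H ⊇ S'`.  Take `L' = (G ∪ H)ᶜ` (`IsPartition.of_open`). -/
def StEXT : Prop :=
  ∀ (K : Type) [TopologicalSpace K] [MetrizableSpace K] (Z A B U V : Set K),
    IsClosed Z → IsClosed A → IsClosed B → Disjoint A B → IsOpen U → IsOpen V → Z ∩ U ∩ V = ∅ →
    Z ∩ A ⊆ U → Z ∩ B ⊆ V →
    ∃ L' : Set K, IsPartition A B L' ∧ ∀ z ∈ Z, z ∈ L' → z ∉ U ∧ z ∉ V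

/-- GLU. Gluing of two partitions.  PROOF. Let `Lᵢ = (Uᵢ ∪ Vᵢ)ᶜ` with `A ⊆ Uᵢ`, `B ⊆ Vᵢ` disjoint open, and disjoint open sets
`Oᵢ ⊇ Zᵢ` (normality).  Put `U = (U₁ ∩ O₁) ∪ (U₂ ∩ O₂)`, `V = (V₁ ∩ O₁) ∪ (V₂ ∩ O₂)`, `Z = Z₁ ∪ Z₂` and apply `StEXT`. -/
def StGLU : Prop :=
  ∀ (K : Type) [TopologicalSpace K] [MetrizableSpace K] (Z₁ Z₂ A B L₁ L₂ : Set K),
    IsClosed Z₁ → IsClosed Z₂ → Disjoint Z₁ Z₂ → IsClosed A → IsClosed B → Disjoint A B →
    IsPartition A B L₁ → IsPartition A B L₂ →
    ∃ N : Set K, IsPartition A B N ∧ N ∩ Z₁ ⊆ L₁ ∧ N ∩ Z₂ ⊆ L₂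

/-- SEQ. Strong infinite-dimensionality of closed subsets.  PROOF. (⇐) Let `T` be closed, `Ess f κ T`.  Pairs in `T`:
`A i = val⁻¹ (lo (f (κ i)))`, `B i = val⁻¹ (hi (f (κ i)))`.  A partition `L i` of `T` is `(val⁻¹ U ∪ val⁻¹ V)ᶜ` with `U, V` open in `K`
(`isOpen_induced_iff`), so `StEXT` with `Z = T` gives a partition `L' i` of `K` with `L' i ∩ T ⊆ L i`; apply `Ess`.
(⇒) Let `(A i, B i)` be essential in `T`; `val '' A i`, `val '' B i` are closed in `K` and disjoint; choose `κ i` with
`val '' A i ⊆ lo (f (κ i))`, `val '' B i ⊆ hi (f (κ i))` (`Fam.sep`).  If `L i` are partitions of `K`, then `val⁻¹ (L i)` is a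
partition in `T` between `A i` and `B i` (`IsPartition.preimage`, `IsPartition.mono`). -/
def StSEQ : Prop :=
  ∀ (K : Type) [TopologicalSpace K] [MetrizableSpace K] (f : ℕ → K → ℝ), Fam f →
    ∀ T : Set K, IsClosed T → (StronglyInfDim T ↔ ∃ κ, Ess f κ T)

/-- CPT. Compactness.  PROOF. (i) Partitions are closed, `T` is compact; if `T ∩ ⋂ i, L i = ∅` then already
`T ∩ ⋂ i < n, L i = ∅` for some `n` (`IsCompact.elim_directed_family_closed_of_isCompact` or
`IsCompact.nonempty_iInter_of_sequence_nonempty_isCompact_isClosed` for the decreasing sets `T ∩ ⋂ i < n, L i`).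
(ii) By the same theorem for the decreasing sequence of the compact nonempty sets `T n ∩ ⋂ i, L i`.
(iii) For a chain `c ≠ ∅` of closed sets: `{t ∩ ⋂ i, L i | t ∈ c}` is a directed family of nonempty compact sets
(`IsCompact.nonempty_sInter_of_directedOn_nonempty_isCompact_isClosed` or `..iInter_of_directed..`). -/
def StCPT : Prop :=
  ∀ (K : Type) [TopologicalSpace K] [CompactSpace K] [MetrizableSpace K] (f : ℕ → K → ℝ)
    (κ : ℕ → ℕ),
    (∀ T : Set K, IsClosed T → (∀ n, EssN f κ n T) → Ess f κ T) ∧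
    (∀ T : ℕ → Set K, (∀ n, IsClosed (T n)) → Antitone T → (∀ n, Ess f κ (T n)) →
      Ess f κ (⋂ n, T n)) ∧
    (∀ c : Set (Set K), c.Nonempty → IsChain (· ⊆ ·) c → (∀ t ∈ c, IsClosed t ∧ Ess f κ t) →
      Ess f κ (⋂₀ c))

/-- SPW. Splitting of the indices.  PROOF. For every `a` choose partitions `L (a+1) i` for `f (κ (Nat.pair (a+1) i))` with
`T ∩ Z a ∩ ⋂ i, L (a+1) i = ∅`.  Put `S = T ∩ ⋂ a i, L (a+1) i`.  `S ∩ Z a = ∅`; and for partitions `M i` for `f (κ (Nat.pair 0 i))` the
family `L' (Nat.pair 0 i) = M i`, `L' (Nat.pair (a+1) i) = L (a+1) i` (defined with `Nat.unpair`) has a common point in `T`. -/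
def StSPW : Prop :=
  ∀ (K : Type) [TopologicalSpace K] (f : ℕ → K → ℝ) (κ : ℕ → ℕ) (T : Set K) (Z : ℕ → Set K),
    IsClosed T → Ess f κ T →
    (∀ a, ¬ Ess f (fun i => κ (Nat.pair (a + 1) i)) (T ∩ Z a)) →
    ∃ S ⊆ T, IsClosed S ∧ Ess f (fun i => κ (Nat.pair 0 i)) S ∧ ∀ a, S ∩ Z a = ∅

/-- FIB. A fibre over the Cantor set is essential.  PROOF. (1) If `T = T' ∪ T''` with disjoint closed `T', T''` and `Ess f κ T`
then `Ess f κ T'` or `Ess f κ T''`: otherwise take partitions `L' i`, `L'' i` without common point in `T'`, `T''` and glue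
them (`StGLU` for every `i`, with `A = lo (f (κ i))`, `B = hi (f (κ i))`, closed and disjoint as `f k` is continuous).  (2) For
`d : ℕ → Bool` and `n` let `T d n = {x ∈ T | ∃ c, jj c = g x ∧ ∀ i < n, c i = d i}`; closed (image under the projection of a
compact subset of `(ℕ → Bool) × K`, see `isClosed_proj`), and `T d n` is the disjoint union of the two sets
`T d' (n+1)`, `d' = Function.update d n b`.  So one can choose values recursively and get `d` with `Ess f κ (T d n)` for all
`n` (note `T d n` depends only on `d 0, ..., d (n-1)`).  (3) `⋂ n, T d n = T ∩ {x | g x = jj d}` (`jj_inj`); `StCPT` (ii). -/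
def StFIB : Prop :=
  ∀ (K : Type) [TopologicalSpace K] [CompactSpace K] [MetrizableSpace K] (f : ℕ → K → ℝ),
    (∀ k, Continuous (f k)) → ∀ (κ : ℕ → ℕ) (T : Set K) (g : K → ℝ), IsClosed T → Continuous g →
    (∀ x ∈ T, ∃ c, jj c = g x) → Ess f κ T → ∃ c, Ess f κ (T ∩ {x | g x = jj c})

/-- CAN. Infinite-dimensional Cantor manifolds.  PROOF. Let `Ess f κ T`.  By Zorn's lemma (`zorn_superset_nonempty` or
`zorn_superset`; chains by `StCPT` (iii), `⋂₀` of closed sets is closed) there is a minimal closed `T₀ ⊆ T` with `Ess f κ T₀`.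
Let `T₀ = T₁ ∪ T₂`, both closed and different from `T₀`.  By minimality `¬ Ess f κ T₁`, `¬ Ess f κ T₂`, so by `StCPT` (i) (contraposed)
there are `n` (take the maximum: `EssN` is antitone in `n`) and partitions `L₁ i`, `L₂ i` with `T₁ ∩ ⋂ i < n, L₁ i = ∅`,
`T₂ ∩ ⋂ i < n, L₂ i = ∅`.  As `T₁ ∩ T₂` is not `Big`, there are partitions `M i` for `f (κ (n + i))` with
`T₁ ∩ T₂ ∩ ⋂ i, M i = ∅`.  So `Z₁ = T₁ ∩ ⋂ i, M i` and `Z₂ = T₂ ∩ ⋂ i, M i` are disjoint closed sets.  By `StGLU` take partitions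
`N i` for `f (κ i)` with `N i ∩ Z₁ ⊆ L₁ i`, `N i ∩ Z₂ ⊆ L₂ i`.  The family `N i` (`i < n`), `M (i - n)` (`i ≥ n`) has no common point in `T₀`:
a common point lies in `Z₁` or `Z₂`.  Contradiction. -/
def StCAN : Prop :=
  ∀ (K : Type) [TopologicalSpace K] [CompactSpace K] [MetrizableSpace K] (f : ℕ → K → ℝ),
    (∀ k, Continuous (f k)) → ∀ T : Set K, Big f T →
    ∃ T₀ ⊆ T, Big f T₀ ∧ ∀ T₁ T₂ : Set K, IsClosed T₁ → IsClosed T₂ → T₀ = T₁ ∪ T₂ →
      ¬ Big f (T₁ ∩ T₂) → T₁ = T₀ ∨ T₂ = T₀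

/-- CON. Connected sets.  PROOF. Take `T₀ ⊆ T` from `StCAN` and `A = T₀ ∩ X`.  Nontrivial: let `Ess f κ T₀`; the level sets
`{f (κ 0) = 1/3}` and `{f (κ 0) = 2/3}` are partitions (`Par`), so `T₀ ∩ {f (κ 0) = 1/3}` is `Big` with the sequence
`fun i => κ (i + 1)`, so it meets `X`; same for `2/3`; the two points are different.  Preconnected: let `U, V` be open in `K`,
`A ⊆ U ∪ V`, `A ∩ U`, `A ∩ V` nonempty, and suppose `A ∩ (U ∩ V) = ∅`.  Then `A ∩ U` and `A ∩ V` are separated sets, so there are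
disjoint open `G ⊇ A ∩ U`, `H ⊇ A ∩ V` (complete normality, see `StEXT`).  `T₁ = T₀ \ H`, `T₂ = T₀ \ G` are closed with union `T₀`,
`T₁ ∩ T₂ = T₀ \ (G ∪ H)` is disjoint from `X`, so it is not `Big`; hence `T₁ = T₀` or `T₂ = T₀`, i.e. `A ∩ V = ∅` or `A ∩ U = ∅`. -/
def StCON : Prop :=
  ∀ (K : Type) [TopologicalSpace K] [CompactSpace K] [MetrizableSpace K] (f : ℕ → K → ℝ),
    (∀ k, Continuous (f k)) → ∀ X : Set K, (∀ T, Big f T → (T ∩ X).Nonempty) → ∀ T, Big f T →
    ∃ A ⊆ T ∩ X, IsPreconnected A ∧ A.Nontrivial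

/-- SIX. PROOF. Let `Ess f κ univ`.  Pairs in `X`: `{f (κ (2 i)) ≤ 1/4}` and `{3/4 ≤ f (κ (2 i))}`.  Given partitions `M i` in `X`,
`exists_partition_ext` (Helper9.SID.Basic; `Z = X`, `A = lo`, `B = hi`, `NA = {f < 1/4}`, `NB = {3/4 < f}`,
`IsPartition.mono`) gives partitions `L i` of `K` between `lo (f (κ (2 i)))` and `hi (f (κ (2 i)))` with `L i ∩ X ⊆ M i`.
`T = ⋂ i, L i` is closed and `Ess f (fun i => κ (2 i + 1)) T` (merge the two families), so `T` meets `X`. -/
def StSIX : Prop :=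
  ∀ (K : Type) [TopologicalSpace K] [CompactSpace K] [MetrizableSpace K] (f : ℕ → K → ℝ),
    (∀ k, Continuous (f k)) → ∀ X : Set K, (∀ T, Big f T → (T ∩ X).Nonempty) → Big f univ →
    StronglyInfDim X

/-- CO0. Existence of codes.  PROOF. Define `c (Nat.pair 0 (Nat.pair n j)) = decide (O j ⊆ U n)`,
`c (Nat.pair 1 j) = decide (Disjoint (O j) T)`, `c (Nat.pair 2 (Nat.pair i n)) = decide (n = κ i)` (with `Nat.unpair` and
`Classical`).  `Base.nhds` gives `cU .. = U n` and `cU .. = Tᶜ`.  `Cert`: if `c (Nat.pair 2 (Nat.pair i (l.getD i 0)))` for all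
`i < l.length`, then `l.getD i 0 = κ i` for `i < l.length`; `EssN` follows from `Ess f κ T`: replace the partitions with index
`i ≥ l.length` by the level set `{f (κ i) = 1/2}`. -/
def StCO0 : Prop :=
  ∀ (K : Type) [TopologicalSpace K] (f : ℕ → K → ℝ), (∀ k, Continuous (f k)) →
    ∀ O : ℕ → Set K, Base O → ∀ (U : ℕ → Set K) (T : Set K) (κ : ℕ → ℕ), (∀ n, IsOpen (U n)) →
    IsClosed T → Ess f κ T → ∃ c, GP O c = ⋂ n, U n ∧ CT O c = T ∧ Cert f O c

/-- CO1. Certified sets are big.  PROOF. Choose `κ i` with `c (Nat.pair 2 (Nat.pair i (κ i))) = true`.  For every `n` the list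
`l = List.ofFn (fun i : Fin n => κ i)` (or `(List.range n).map κ`) gives `EssN f κ n (CT O c)` (`EssN` for `l` uses partitions
with index `i ≥ n` for `f 0`; replace them by any partition, e.g. the level set `{f 0 = 1/2}`); then `StCPT` (i). -/
def StCO1 : Prop :=
  ∀ (K : Type) [TopologicalSpace K] [CompactSpace K] [MetrizableSpace K] (f : ℕ → K → ℝ),
    (∀ k, Continuous (f k)) → ∀ O : ℕ → Set K, Base O → ∀ c, Cert f O c → Big f (CT O c)

/-- CO2. PROOF. (i) Key: for a compact `Z`, `{c | Z ⊆ cU O (part of c)}` is open: a finite subcover; more precisely for a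
continuous `φ : Y → (ℕ → Bool)` the set `{y | Z ⊆ cU O (φ y)}` is open.  So for fixed `l` the set
`{c | ¬ EssN f _ l.length (CT O c)}` is a union over the families `L` of the open sets
`{c | ⋂ i < l.length, L i ⊆ cU O (fun j => c (Nat.pair 1 j))}` (finite intersections of partitions are closed, so compact).
`Cert` is the intersection of the open sets `{c | ∃ n, c .. = true}` and, for every list `l` (countably many), of
`{c | ¬ (∀ i < l.length, c .. = true)} ∪ {c | EssN ..}` (both closed, closed sets in the metrizable space `ℕ → Bool` are G-delta).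
(ii) `CT O c' ⊆ GP O c` iff for all `n` `univ ⊆ cU O (c' 1) ∪ cU O (c 0 n)`: for every `n` an open set of pairs `(c, c')`
(compactness of `K`; note `cU O a ∪ cU O b = cU O (a || b)`). -/
def StCO2 : Prop :=
  ∀ (K : Type) [TopologicalSpace K] [CompactSpace K] [MetrizableSpace K] (f : ℕ → K → ℝ),
    (∀ k, Continuous (f k)) → ∀ O : ℕ → Set K, Base O →
    IsGδ {c : ℕ → Bool | Cert f O c} ∧
    IsGδ {q : (ℕ → Bool) × (ℕ → Bool) | CT O q.2 ⊆ GP O q.1}

/-- BOR. PROOF. For fixed `k`: the condition (for all `c` with `jj c = f k x` ...) says (`jj` is injective) that `x` lies in one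
of the sets: `{x | ¬ ∃ c, jj c = f k x}` (open, since `range jj` is compact); for `n : ℕ`
`{x | ∃ c, jj c = f k x ∧ x ∉ cU O (c 0 n)}` (closed: projection along the compact space `ℕ → Bool` of a closed set, `isClosed_proj`; the set
`{(c, x) | x ∈ cU O (c 0 n)}` is open); for `j : ℕ`
`{x | ∃ c c', jj c = f k x ∧ jj c' = f j x ∧ Cert f O c' ∧ CT O c' ⊆ GP O c}`.  The last set is G-delta: by `StCO2` the set of the pairs
`(c, c')` with the last two conditions is `⋂ m, W m` with open `W m` (`isGδ_iff_eq_iInter_nat`, preimage of `Cert` under `Prod.snd`);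
by injectivity of `jj` the set is the intersection over `m` of
`{x | (∃ c c', jj c = f k x ∧ jj c' = f j x)} \ {x | ∃ c c', jj c = f k x ∧ jj c' = f j x ∧ (c, c') ∉ W m}`,
differences of closed sets (projection along the compact space `(ℕ → Bool) × (ℕ → Bool)`, `isClosedMap_snd_of_compactSpace`),
hence G-delta in the metrizable `K`.  Enumerate the three kinds of sets by `ℕ`. -/
def StBOR : Prop :=
  ∀ (K : Type) [TopologicalSpace K] [CompactSpace K] [MetrizableSpace K] (f : ℕ → K → ℝ),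
    (∀ k, Continuous (f k)) → ∀ O : ℕ → Set K, Base O →
    ∃ G : ℕ → ℕ → Set K, (∀ i j, IsGδ (G i j)) ∧ XX f O = ⋂ i, ⋃ j, G i j

/-- MEE. The set `XX f O` meets every big set.  PROOF. Let `XX k` be the set of the `x` which satisfy the condition of `XX` for the
index `k`.  Step: for every big `T` and every `k` there is a big `T' ⊆ T` with `T' ⊆ XX k`.  Proof of the step: let `Ess f κ T`.
`ℝ \ range jj` is open, so the union of closed sets `F n` (`IsOpen.exists_iUnion_isClosed` or metrizable F-sigma).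
Apply `StSPW` with `Z 0 = {x | ∃ c, jj c = f k x}` (closed), `Z (n+1) = {x | f k x ∈ F n}`: they cover `K` and the set `S` would be empty,
contradiction to `Ess` (an empty set is not essential: level sets `{= 1/2}` are partitions), so some
`Ess f κ' (T ∩ Z a)`.  If `a = n + 1`: `T' = T ∩ Z a` (no `c` with `jj c = f k x`).  If `a = 0`: by `StFIB` there is `c` with
`Ess f κ' T₁`, `T₁ = T ∩ Z 0 ∩ {f k = jj c}`.  Apply `StSPW` to `T₁` and `Z n = (cU O (c 0 n))ᶜ`.  If some
`Ess f κ'' (T₁ ∩ Z n)`, take `T' = T₁ ∩ Z n` (its points are not in `GP O c`; `c` is unique by `jj_inj`).  Otherwise there is a closed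
`S ⊆ T₁` with `Ess f κ₂ S`, `S ⊆ GP O c`.  Take `c'` with `CT O c' = S`, `Cert f O c'` (`StCO0`, any `U`), `j = κ₂ 0`,
`T' = S ∩ {f j = jj c'}`: it is closed, and `Ess f (fun i => κ₂ (i + 1)) T'` since `{f j = jj c'}` is a partition (`0 < jj c' < 1`).  Its
points satisfy the second alternative.  Then iterate: `T₀ = T ⊇ T₁ ⊇ T₂ ⊇ ...` big, `T_(k+1) ⊆ XX k`; the intersection of the nonempty
compact sets is nonempty (`IsCompact.nonempty_iInter_of_sequence_nonempty_isCompact_isClosed`). -/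
def StMEE : Prop :=
  ∀ (K : Type) [TopologicalSpace K] [CompactSpace K] [MetrizableSpace K] (f : ℕ → K → ℝ),
    (∀ k, Continuous (f k)) → ∀ O : ℕ → Set K, Base O → ∀ T, Big f T → (T ∩ XX f O).Nonempty

/-- ZER. PROOF. Let `c` be a code with `GP O c = ⋂ n, U n` (as in `StCO0`; the parts 1 and 2 of `c` are irrelevant: define
`c` by the formula of `StCO0` and `false` for the parts 1, 2).  Base of clopen sets: let `x₀ ∈ Y` and `W` open in `K` with
`x₀ ∈ W`; take `k` with `{x₀} ⊆ lo (f k)`, `Wᶜ ⊆ hi (f k)`.  No `y ∈ Y` has `f k y = jj c`: `y ∈ XX f O` and `y ∈ GP O c` give a certified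
`CT O c' ⊆ GP O c = ⋂ n, U n`, which is big by `StCO1`, contradiction.  So `{y ∈ Y | f k y < jj c}` is clopen in `Y`, contains `x₀`
(`jj_pos`) and is contained in `W` (`jj_lt`). -/
def StZER : Prop :=
  ∀ (K : Type) [TopologicalSpace K] [CompactSpace K] [MetrizableSpace K] (f : ℕ → K → ℝ), Fam f →
    ∀ O : ℕ → Set K, Base O → ∀ U : ℕ → Set K, (∀ n, IsOpen (U n)) →
    (∀ T ⊆ ⋂ n, U n, ¬ Big f T) → ∀ Y : Set K, Y ⊆ XX f O ∩ ⋂ n, U n → Y.Nonempty → ZeroDim Y

/-- HIL. The Hilbert cube is strongly infinite-dimensional.  PROOF. Pairs `A i = {x | x i = 0}`, `B i = {x | x i = 1}`.  Let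
`L i = (U i ∪ V i)ᶜ` be partitions.  By compactness it is enough to find for every `n` a point in `⋂ i < n, L i`.  Fix `n`, use the points
`(y 0 / N, ..., y (n-1) / N, 0, 0, ...)`.  Suppose `⋂ i < n, L i` is empty on the face `I^n` (coordinates `≥ n` equal to `0`), i.e. the open
sets `U i ∪ V i`, `i < n`, cover it; by the Lebesgue number lemma there is `N` such that for every grid cube of side `1 / N` there is
`i < n` such that the cube lies in `U i ∪ V i`, and the cube is connected (or: apply the Lebesgue lemma to the cover by the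
`2 n` open sets `U i`, `V i`: every grid cube lies in one of them), so in `U i` or in `V i`.  Colour `f i y = 0` if
the point is in `U i`, `1` otherwise (`y i = 0` gives `0` as `A i ⊆ U i`; `y i = N` gives a point of `B i ⊆ V i`, so `1`).  The discrete
Poincare-Miranda theorem Pool.Agent.Helper52.CM.Grid.exists_cube (Pool/Agent/Helper52/CM/Grid.lean) gives a grid cube on
which every `f i` takes both values; contradiction.  See `not_setFam_cube` in Pool/Agent/Helper52/CM/Cube.lean as a model. -/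
def StHIL : Prop := StronglyInfDim (ℕ → unitInterval)

/-- PFS. F-sigma-delta sets.  PROOF. (1) Codes.  Let `Ess f κ univ`.  Let `E` be the `EssFam` (Helper9.SID.Basic) with
`A i = lo (f (κ (2 i + 1)))`, `B i = hi ..`, `NA i = {f (κ (2 i + 1)) < 1/4}`, `NB i = {3/4 < f ..}`; `Q : Codes E` from `exists_codes`
(Helper9.SID.Coding; closed sets `A i`).  `g = f (κ 0)`, `κ' i = κ (2 i + 2)`.  For `c : ℕ → Bool` let `T c = {x | g x = jj c ∧ Q.On c x}`; it
is closed and for every closed `D`: if all ... in particular `Ess f κ' (T c)`, since `{g = jj c}` and `Q.part c i` are partitions.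
(2) Cells.  For every `m` let `D m l` (`l : ℕ`) be closed sets of diameter at most `1 / (m + 1)` which cover `K`; let
`C m a = Fs m (Nat.unpair a).1 ∩ D m (Nat.unpair a).2`.  For `p : List ℕ` define recursively the closed set `G p` and the sequence
`κp p`: `G [] = univ`, `κp [] = κ'`, and for `p ++ [a]` (or `a :: p`, with `m = p.length`): `G (a :: p) = G p ∩ C m a`,
`κp (a :: p) i = κp p (Nat.pair (a + 1) i)`.  `E p = {c | Ess f (κp p) (T c ∩ G p)}` is closed: for fixed partitions `L i` the set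
`{c | (T c ∩ G p ∩ ⋂ i, L i).Nonempty}` is closed (projection to `ℕ → Bool` along the compact `K`).  (3) Step: if `c ∈ E p` there is
`a` with `c ∈ E (a :: p)`: otherwise `StSPW` (with `Z a = C m a`) gives a closed `S ⊆ T c ∩ G p`, `Ess ..  S`, disjoint from all `C m a`, so from
`⋃ n, Fs m n ⊇ X`; but `S` is `Big`, so it meets `X`.  Let `a` be the least such number.  So every `c` has a path `s c : ℕ → ℕ`; let
`p m` be its initial segment; `c ∈ E (p m)` for all `m`.  (4) `Y = {x | ∃ c, x ∈ T c ∧ ∀ m, x ∈ G (path c m)}`.  For every `p` the set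
`B p = {c | path c p.length = p}` is a finite Boolean combination of closed sets (`B (a :: p) = B p ∩ E (a :: p) \ ⋃ a' < a, E (a' :: p)`), and
`Y = {x | ∃ c, x ∈ T c} ∩ ⋂ p, ({x | ∃ c, x ∈ T c ∧ c ∉ B p} ∪ G p)` (`c` is determined by `x`), where
`{x | ∃ c, x ∈ T c ∧ c ∈ W}` is closed for closed `W` and `{x | ∃ c, x ∈ T c}` minus such a set for open `W`; so all these sets are G-delta,
finite unions and countable intersections as well.  `Y ⊆ X` as `G (path c (m+1)) ⊆ ⋃ n, Fs m n`.  (5) For every `c` the decreasing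
nonempty compact sets `T c ∩ G (path c m)` have a common point, so `Y` meets `{x | Q.On c x}` for all `c`, and `Y` is strongly
infinite-dimensional by `Codes.sid_of_meets`.  Two points of `Y` with the same `g` have the same `c` and distance at most
`1 / (m + 1)` for all `m`; so `g` is injective on `Y` with values in `range jj`, and `Y` is totally disconnected (`td_of_injective`, Helper9.SID.Main1,
for the map to `ℕ → Bool` or to the totally disconnected set `range jj`).  (6) `exists_gdelta_hsid` (Helper9.SID.Main1) applied to `Y` gives the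
final set (see `q1_of_td`, `q1_of_sub` in Main1: `q1_of_td` gives `Q1Holds Y`; then transport to a subset of `K` as in `q1_of_sub`). -/
def StPFS : Prop :=
  ∀ (K : Type) [TopologicalSpace K] [CompactSpace K] [MetrizableSpace K] (f : ℕ → K → ℝ),
    Fam f → Big f univ → ∀ (X : Set K) (Fs : ℕ → ℕ → Set K), (∀ m n, IsClosed (Fs m n)) →
    X = ⋂ m, ⋃ n, Fs m n → (∀ T, Big f T → (T ∩ X).Nonempty) →
    ∃ Y ⊆ X, IsGδ Y ∧ StronglyInfDim Y ∧ TotallyDisconnectedSpace Y ∧ HeredSID Y

end Pool.Agent.Helper65.BQ
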